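import Pool.Agent.Helper92.Ru.GoalsS

/-!
# GapHyp : finiteness of hyperplanes with a gap (packet S11)

`Flat → HT → GapHyp`.
-/

set_option autoImplicit false

open NumberField

namespace Pool.Agent.Helper84.Ru

open Pool.Agent.Helper92.Ru

theorem gapHyp (hFlat : Flat) (hHT : HT) : GapHyp := by
  intro k _ _ T ι _ _ _ A hA hcard B δ hδ
  classical
  obtain ⟨C, a, hC1, hF⟩ := hFlat k T ι A hA hcard
  set B1 : ℝ := max B 0 with hB1
  have hB10 : 0 ≤ B1 := le_max_right _ _
  have hBB1 : B ≤ B1 := le_max_left _ _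
  have hCpos : 0 < C := by linarith
  -- the threshold
  set Q0 : ℝ := max 2 (max C (C ^ (4 / δ))) with hQ0
  have hQ02 : 2 ≤ Q0 := le_max_left _ _
  -- the denominator
  obtain ⟨D0, hD0⟩ := exists_nat_gt (((Fintype.card (SP k T) : ℝ) * Fintype.card ι) / (δ / 4))
  set D : ℕ := D0 + 1 with hD
  have hDpos : (0 : ℝ) < D := by positivity
  have hDs : ((Fintype.card (SP k T) : ℝ) * Fintype.card ι) / D ≤ δ / 4 := by
    rw [div_le_iff₀ hDpos]
    rw [div_lt_iff₀ (by positivity)] at hD0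
    have : (D0 : ℝ) ≤ D := by rw [hD]; push_cast; linarith
    nlinarith
  obtain ⟨M, hM⟩ := exists_nat_gt ((D : ℝ) * (a * B1 + 2))
  refine ⟨Q0, by linarith, ?_⟩
  -- the grid
  have hgrid : Set.Finite {m : SP k T → ι → ℤ | (∀ v, ∀ i, m v i ∈ Set.Icc (-(M : ℤ)) M) ∧
      ∑ v, ∑ i, ((m v i : ℝ) / D) < 0} := by
    apply Set.Finite.subset (s := {m : SP k T → ι → ℤ |
      ∀ v, m v ∈ {f : ι → ℤ | ∀ i, f i ∈ Set.Icc (-(M : ℤ)) M}})
    · exact Set.Finite.pi' fun v => Set.Finite.pi' fun i => Set.finite_Icc _ _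
    · intro m hm v i
      exact hm.1 v i
  apply Set.Finite.subset (hgrid.biUnion fun m hm =>
    hHT k T ι A hA hcard (fun v i => (m v i : ℝ) / D) hm.2)
  rintro W ⟨hW, Q, e, R, hQ, he, hR, hgap⟩
  have hQ1 : 1 < Q := by linarith
  have hQpos : 0 < Q := by linarith
  have hlogQ : 0 < Real.log Q := Real.log_pos hQ1
  have hCQ : C ≤ Q := by
    have : C ≤ Q0 := (le_max_left _ _).trans (le_max_right _ _)
    linarith
  have hCQ4 : C ≤ Q ^ (δ / 4) := by
    have h1 : C ^ (4 / δ) ≤ Q := by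
      have : C ^ (4 / δ) ≤ Q0 := (le_max_right _ _).trans (le_max_right _ _)
      linarith
    calc C = (C ^ (4 / δ)) ^ (δ / 4) := by
          rw [← Real.rpow_mul hCpos.le]
          have : 4 / δ * (δ / 4) = 1 := by field_simp
          rw [this, Real.rpow_one]
      _ ≤ Q ^ (δ / 4) := Real.rpow_le_rpow (Real.rpow_nonneg hCpos.le _) h1 (by positivity)
  have hCG : C ≤ Q ^ δ := hCQ4.trans (Real.rpow_le_rpow_of_exponent_le hQ1.le (by linarith))
  obtain ⟨w', hw'pos, hprod, hup, hlow, hspan⟩ := hF (wQ Q e) (Q ^ B1) R (Q ^ δ)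
    (Real.one_le_rpow hQ1.le hB10) hR hCG
    (fun v i => Real.rpow_pos_of_pos hQpos _)
    (fun v i => Real.rpow_le_rpow_of_exponent_le hQ1.le
      ((le_abs_self _).trans ((he v i).trans hBB1)))
    (fun v i => by
      show 1 ≤ Q ^ B1 * Q ^ e v i
      rw [← Real.rpow_add hQpos]
      apply Real.one_le_rpow hQ1.le
      have := (abs_le.1 (he v i)).1
      linarith)
    W hW hgap
  -- exponents
  set e' : SP k T → ι → ℝ := fun v i => Real.log (w' v i) / Real.log Q with he'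
  have hQe' : ∀ v i, Q ^ e' v i = w' v i := by
    intro v i
    rw [Real.rpow_def_of_pos hQpos, he']
    have : Real.log Q * (Real.log (w' v i) / Real.log Q) = Real.log (w' v i) := by
      field_simp
    simp only [this]
    exact Real.exp_log (hw'pos v i)
  have hKa : (Q ^ B1) ^ a = Q ^ (a * B1) := by
    rw [← Real.rpow_natCast, ← Real.rpow_mul hQpos.le, mul_comm]
  have hCK : C * (Q ^ B1) ^ a ≤ Q ^ (a * B1 + 1) := by
    rw [hKa, Real.rpow_add hQpos, Real.rpow_one, mul_comm]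
    exact mul_le_mul_of_nonneg_left hCQ (Real.rpow_nonneg hQpos.le _)
  have he'up : ∀ v i, e' v i ≤ a * B1 + 1 := by
    intro v i
    have h1 : w' v i ≤ Q ^ (a * B1 + 1) := (hup v i).trans hCK
    rw [← hQe' v i] at h1
    exact (Real.rpow_le_rpow_left_iff hQ1).1 h1
  have he'low : ∀ v i, -(a * B1 + 1) ≤ e' v i := by
    intro v i
    have h1 : 1 ≤ Q ^ (a * B1 + 1) * w' v i :=
      (hlow v i).trans (mul_le_mul_of_nonneg_right hCK (hw'pos v i).le)
    rw [← hQe' v i, ← Real.rpow_add hQpos] at h1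
    have h2 : Q ^ (0 : ℝ) ≤ Q ^ (a * B1 + 1 + e' v i) := by rw [Real.rpow_zero]; exact h1
    have := (Real.rpow_le_rpow_left_iff hQ1).1 h2
    linarith
  have hsum : ∑ v, ∑ i, e' v i ≤ -(3 * δ / 4) := by
    have h1 : (∏ v, ∏ i, w' v i) = Q ^ (∑ v, ∑ i, e' v i) := by
      rw [Real.rpow_sum_of_pos hQpos]
      apply Finset.prod_congr rfl
      intro v _
      rw [Real.rpow_sum_of_pos hQpos]
      exact Finset.prod_congr rfl fun i _ => (hQe' v i).symm
    rw [h1, ← Real.rpow_add hQpos] at hprod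
    have h2 := hprod.trans hCQ4
    have := (Real.rpow_le_rpow_left_iff hQ1).1 h2
    linarith
  -- rounding
  set m : SP k T → ι → ℤ := fun v i => ⌈(D : ℝ) * e' v i⌉ with hm
  have hm1 : ∀ v i, e' v i ≤ (m v i : ℝ) / D := by
    intro v i
    rw [le_div_iff₀ hDpos, mul_comm]
    exact Int.le_ceil _
  have hm2 : ∀ v i, (m v i : ℝ) / D ≤ e' v i + 1 / D := by
    intro v i
    rw [div_le_iff₀ hDpos]
    have := (Int.ceil_lt_add_one ((D : ℝ) * e' v i)).le
    have h3 : (e' v i + 1 / D) * D = D * e' v i + 1 := by field_simp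
    rw [h3]
    exact this
  have hmM : ∀ v i, m v i ∈ Set.Icc (-(M : ℤ)) M := by
    intro v i
    have hD1 : (1 : ℝ) ≤ D := by rw [hD]; push_cast; linarith [Nat.cast_nonneg (α := ℝ) D0]
    have hlo : -((D : ℝ) * (a * B1 + 2)) ≤ m v i := by
      have h1 : (D : ℝ) * e' v i ≤ m v i := Int.le_ceil _
      have h2 := he'low v i
      nlinarith
    have hhi : (m v i : ℝ) ≤ (D : ℝ) * (a * B1 + 2) := by
      have h1 := (Int.ceil_lt_add_one ((D : ℝ) * e' v i)).le
      have h2 := he'up v i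
      have h3 : (m v i : ℝ) ≤ D * e' v i + 1 := h1
      nlinarith
    constructor
    · have : (-(M : ℤ) : ℝ) ≤ m v i := by push_cast; linarith
      exact_mod_cast this
    · have : (m v i : ℝ) ≤ (M : ℤ) := by push_cast; linarith
      exact_mod_cast this
  have hmsum : ∑ v, ∑ i, ((m v i : ℝ) / D) < 0 := by
    calc ∑ v, ∑ i, ((m v i : ℝ) / D) ≤ ∑ v, ∑ i, (e' v i + 1 / D) :=
          Finset.sum_le_sum fun v _ => Finset.sum_le_sum fun i _ => hm2 v i
      _ = (∑ v, ∑ i, e' v i) + ((Fintype.card (SP k T) : ℝ) * Fintype.card ι) / D := by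
          simp only [Finset.sum_add_distrib, Finset.sum_const, Finset.card_univ, nsmul_eq_mul]
          ring
      _ < 0 := by linarith
  simp only [Set.mem_iUnion]
  refine ⟨m, ⟨hmM, hmsum⟩, hW, Q, hQ1.le, ?_⟩
  refine le_trans hspan (Submodule.span_mono ?_)
  rintro x ⟨hxW, hxI, hxB⟩
  refine ⟨hxW, hxI, fun v i => (hxB v i).trans ?_⟩
  rw [← hQe' v i]
  exact Real.rpow_le_rpow_of_exponent_le hQ1.le (hm1 v i)

end Pool.Agent.Helper84.Ru
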